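import Pool.Agent.H.MP_ac3185_nt.O42.Defs

/-! Definitions for the theorem on twists over quadratic fields. -/

set_option autoImplicit false

open CategoryTheory AlgebraicGeometry NumberField IsDedekindDomain
open scoped MonObj

namespace Pool.Agent.H.MP_ac3185_nt.QF

open OE

universe u

/-- The global root number over `F` of the quadratic twist of `A` by `a` is `1`, and its rank over `F`
is even. (The rank is the cardinal number `Module.rank`; a cardinal `c` is even if `c = b + b` for some
`b`, so infinite cardinals, which do not occur by the theorem of Mordell and Weil, are even.) -/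
def TwistEven {K : Type u} [Field K] [NumberField K] (A : Over (Spec (.of K))) [GrpObj A]
    [IsAbVar A] (a : K) (F : IntermediateField K (AlgebraicClosure K)) : Prop :=
  ∀ (B : Over (Spec (.of K))) [GrpObj B] [IsAbVar B], IsTwistBy A B a →
    (∀ W : LocalSigns K, IsRootNumberFamily B W → ∀ g : ℕ, signOver W g F = 1) ∧
      Even (Module.rank ℤ (Pts B F))

/-- The quadratic twists by `a` of all the `A i` have root number `1` and even rank over all the fields
`F` of an infinite tower over the field `L`: there is a field `L'` in `K'`, of infinite degree over `K`,
which contains `L`, such that this holds for all finite extensions `F` of `L` contained in `L'`, and for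
all finite Galois extensions `F` of `K` with `AboveTower L' F` which contain `L`. -/
def TowerOver {K : Type u} [Field K] [NumberField K] {I : Type}
    (A : I → Over (Spec (.of K))) [∀ i, GrpObj (A i)] [∀ i, IsAbVar (A i)] (a : K)
    (K' L : IntermediateField K (AlgebraicClosure K)) : Prop :=
  ∃ L' : IntermediateField K (AlgebraicClosure K), L ≤ L' ∧ L' ≤ K' ∧ ¬ FiniteDimensional K L' ∧
    ∀ F : IntermediateField K (AlgebraicClosure K), FiniteDimensional K F → L ≤ F →
      (F ≤ L' ∨ AboveTower L' F) → ∀ i, TwistEven (A i) a F

end Pool.Agent.H.MP_ac3185_nt.QF
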