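import Pool.Agent.H.MP_ac3185_nt.O42.Rank
import Pool.Agent.H.MP_ac3185_nt.Q42.Defs

/-! All but finitely many twists over quadratic fields: the ranks. -/

set_option autoImplicit false

open CategoryTheory AlgebraicGeometry NumberField IsDedekindDomain
open scoped MonObj

namespace Pool.Agent.H.MP_ac3185_nt.QF

open OE

universe u

theorem even_sum_inv {X : Type*} [Fintype X] (f : X → ℕ) (τ : X → X)
    (hτ : ∀ x, τ (τ x) = x) (hne : ∀ x, τ x ≠ x) (hf : ∀ x, f x + f (τ x) ≡ 0 [MOD 2]) :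
    Even (∑ x, f x) := by
  have hsum : ((∑ x, f x : ℕ) : ZMod 2) = 0 := by
    rw [Nat.cast_sum]
    refine Finset.sum_involution (fun x _ => τ x) ?_ ?_ ?_ ?_
    · intro x _
      have h3 := (ZMod.natCast_eq_natCast_iff _ _ 2).2 (hf x)
      rw [Nat.cast_add, Nat.cast_zero] at h3
      exact h3
    · intro x _ _
      exact hne x
    · intro x _
      exact Finset.mem_univ _
    · intro x _
      exact hτ x
  rw [ZMod.natCast_eq_zero_iff] at hsum
  exact even_iff_two_dvd.2 hsum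

variable {K : Type u} [Field K] [CharZero K]

/-- The ranks over `F` are even. (As `rankK_even`.) -/
theorem rankQ_even (A B : Over (Spec (.of K))) [GrpObj A] [IsAbVar A] [GrpObj B] [IsAbVar B]
    (a : K) (hAB : IsTwistBy A B a) (X : Set K) (hX : ∀ b ∈ X, b ≠ 0)
    (F : IntermediateField K (AlgebraicClosure K)) (hF : AboveTower (sqrtExt X) F)
    (c : K) (x : AlgebraicClosure K) (hxF : x ∈ F)
    (hx : x ^ 2 = algebraMap K (AlgebraicClosure K) c) (hc : chiK c ≠ 1)
    (hP : ∀ t : Finset K, (∀ b ∈ t, b ∈ X) →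
      psiRank A (chiK (∏ b ∈ t, b) * chiK a) + psiRank A (chiK (∏ b ∈ t, b) * chiK c * chiK a) ≡
        0 [MOD 2]) :
    Even (Module.rank ℤ (Pts B F)) := by
  classical
  obtain ⟨hfd0, hgal, hnil, -, hq⟩ := hF
  rcases lt_or_ge (Module.rank ℤ (Pts B F)) Cardinal.aleph0 with h1 | h1
  · obtain ⟨r, hr⟩ := Cardinal.lt_aleph0.1 h1
    rw [hr]
    apply gt_even_nat
    have hfinG : Finite (F ≃ₐ[K] F) := inferInstance
    obtain ⟨M, _, _, ρ, hM, hε⟩ := exists_repK A B _ hAB F
    have hMr : Module.rank ℚ M = (r : Cardinal) := hM.trans hr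
    have hfd : FiniteDimensional ℚ M := Module.rank_lt_aleph0_iff.1 (by
      rw [hMr]; exact Cardinal.natCast_lt_aleph0)
    have hMf : Module.finrank ℚ M = r := Module.finrank_eq_of_rank_eq hMr
    obtain ⟨N, hN, hodd, h2⟩ := hnil
    have hmod := finrank_two_nilpotent N hodd h2 ρ
    obtain ⟨ε₀, hε₀⟩ := epsK F c x hxF hx
    have hne₀ : ε₀ ≠ 1 := fun h => hc (by
      apply MonoidHom.ext
      intro σ
      rw [← hε₀ σ, h]
      rfl)
    have hfin : Finite ((F ≃ₐ[K] F) →* ℤˣ) := DFunLike.finite _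
    have _ : Fintype ((F ≃ₐ[K] F) →* ℤˣ) := Fintype.ofFinite _
    rw [hMf, finsum_eq_sum_of_fintype] at hmod
    have hg : ∀ (ε : (F ≃ₐ[K] F) →* ℤˣ) (ψ : (AlgebraicClosure K ≃ₐ[K] AlgebraicClosure K) →* ℤˣ),
        (∀ σ, ε (AlgEquiv.restrictNormalHom F σ) * chiK a σ = ψ σ) →
        Module.finrank ℚ (epsPart ρ ε) = psiRank A ψ := by
      intro ε ψ h5
      have h6 := hε ε ψ h5
      unfold psiRank Module.finrank
      rw [h6]
    have hinv : ∀ ε : (F ≃ₐ[K] F) →* ℤˣ, ε * ε₀ * ε₀ = ε := by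
      intro ε
      rw [mul_assoc]
      have h9 : ε₀ * ε₀ = 1 := by
        apply MonoidHom.ext
        intro g
        rw [MonoidHom.mul_apply, Int.units_mul_self, MonoidHom.one_apply]
      rw [h9, mul_one]
    have hev := even_sum_inv (fun ε : (F ≃ₐ[K] F) →* ℤˣ => Module.finrank ℚ (epsPart ρ ε))
      (fun ε => ε * ε₀) hinv (fun ε h => hne₀ (mul_eq_left.1 h)) (fun ε => by
        obtain ⟨t, ht, ht2⟩ := charK_tower X hX F hq ε
        have h7 := hg ε (chiK (∏ b ∈ t, b) * chiK a) (fun σ => by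
          rw [ht2, MonoidHom.mul_apply])
        have h8 := hg (ε * ε₀) (chiK (∏ b ∈ t, b) * chiK c * chiK a) (fun σ => by
          rw [MonoidHom.mul_apply, ht2, hε₀, MonoidHom.mul_apply, MonoidHom.mul_apply])
        show Module.finrank ℚ (epsPart ρ ε) + Module.finrank ℚ (epsPart ρ (ε * ε₀)) ≡ 0 [MOD 2]
        rw [h7, h8]
        exact hP t ht)
    rw [Nat.even_iff] at hev ⊢
    exact (show r % 2 = _ from hmod).trans hev
  · have h2 := gt_even_infinite _ h1 0
    rwa [Nat.cast_zero, add_zero] at h2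

end Pool.Agent.H.MP_ac3185_nt.QF
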