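import Pool.Agent.H.MP_ac3185_nt.Q42.Loc

/-! All but finitely many twists over quadratic fields: the global root number. -/

set_option autoImplicit false

open CategoryTheory AlgebraicGeometry NumberField IsDedekindDomain
open scoped MonObj

namespace Pool.Agent.H.MP_ac3185_nt.QF

open OE KT

universe u

variable {K : Type u} [Field K] [NumberField K]

/-- `c` is positive at the real places. -/
def TotPos (c : K) : Prop :=
  ∀ φ : K →+* ℂ, (∀ y, starRingEnd ℂ (φ y) = φ y) → 0 < (φ c).re

/-- The number of infinite places is even. (As `roota_infinite`.) -/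
theorem infinite_pos (F : IntermediateField K (AlgebraicClosure K)) [FiniteDimensional K F]
    [IsGalois K F] (c : K) (x : AlgebraicClosure K) (hxF : x ∈ F)
    (hx : x ^ 2 = algebraMap K (AlgebraicClosure K) c) (hK : ∀ y : K, y ^ 2 ≠ c)
    (hc : TotPos c) : Even (Nat.card (InfinitePlace F)) := by
  have hnf : NumberField F := NumberField.of_module_finite K F
  have hQ : IntermediateField.adjoin K {x} ≤ F := IntermediateField.adjoin_simple_le_iff.2 hxF
  refine roota_even_card (relGal F (IntermediateField.adjoin K {x}))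
    (roota_index F _ hQ (tow_finrank c x hx hK)) fun g w hw => ?_
  -- it is enough that `g` fixes `x`
  suffices hgx : g ⟨x, hxF⟩ = ⟨x, hxF⟩ by
    intro z hz
    have hcl : ∀ t ∈ IntermediateField.adjoin K {x}, ∀ ht : t ∈ F, g ⟨t, ht⟩ = ⟨t, ht⟩ := by
      intro t ht
      induction ht using IntermediateField.adjoin_induction with
      | mem t ht =>
        intro ht'
        have h1 : t = x := ht
        subst h1
        exact hgx
      | algebraMap t =>
        intro ht'
        exact g.commutes t
      | add t t' h h' h1 h2 =>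
        intro ht'
        have e1 : (⟨t + t', ht'⟩ : F) = ⟨t, hQ h⟩ + ⟨t', hQ h'⟩ := rfl
        rw [e1, map_add, h1, h2]
      | inv t h h1 =>
        intro ht'
        have e1 : (⟨t⁻¹, ht'⟩ : F) = (⟨t, hQ h⟩ : F)⁻¹ := rfl
        rw [e1, map_inv₀, h1]
      | mul t t' h h' h1 h2 =>
        intro ht'
        have e1 : (⟨t * t', ht'⟩ : F) = ⟨t, hQ h⟩ * ⟨t', hQ h'⟩ := rfl
        rw [e1, map_mul, h1, h2]
    exact hcl z hz z.2
  have hmk : InfinitePlace.mk (w.embedding.comp (g.symm : F →+* F)) = w := by
    have h3 : g • w = InfinitePlace.mk (w.embedding.comp (g.symm : F →+* F)) := by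
      conv_lhs => rw [← InfinitePlace.mk_embedding w]
      rfl
    rw [← h3]
    exact hw
  have hcase : w.embedding.comp (g.symm : F →+* F) = w.embedding ∨
      ComplexEmbedding.conjugate (w.embedding.comp (g.symm : F →+* F)) = w.embedding := by
    rw [← InfinitePlace.mk_eq_iff, hmk, InfinitePlace.mk_embedding]
  obtain ⟨z, hz⟩ : ∃ z : F, z = ⟨x, hxF⟩ := ⟨_, rfl⟩
  rw [← hz]
  rcases hcase with h | h
  · have h3 := RingHom.congr_fun h (g z)
    have h4 : g.symm (g z) = z := g.symm_apply_apply z
    have h5 : w.embedding (g.symm (g z)) = w.embedding (g z) := h3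
    rw [h4] at h5
    exact (w.embedding.injective h5).symm
  · have hconj : ∀ y : F, starRingEnd ℂ (w.embedding (g.symm y)) = w.embedding y := by
      intro y
      exact RingHom.congr_fun h y
    have hK' : ∀ y : K, starRingEnd ℂ ((w.embedding.comp (algebraMap K F)) y) =
        (w.embedding.comp (algebraMap K F)) y := by
      intro y
      have h3 := hconj (algebraMap K F y)
      rw [AlgEquiv.commutes] at h3
      exact h3
    have hpos := hc (w.embedding.comp (algebraMap K F)) hK'
    have hre : ((((w.embedding.comp (algebraMap K F)) c).re : ℝ) : ℂ) =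
        (w.embedding.comp (algebraMap K F)) c := by
      exact (Complex.conj_eq_iff_re).1 (hK' c)
    have hz2 : z ^ 2 = algebraMap K F c := by
      rw [hz]
      apply Subtype.ext
      show x ^ 2 = _
      rw [hx]
      rfl
    have h2 : (w.embedding z) ^ 2 = ((((w.embedding.comp (algebraMap K F)) c).re : ℝ) : ℂ) := by
      rw [hre, ← map_pow, hz2]
      rfl
    have h3 : ((Real.sqrt ((w.embedding.comp (algebraMap K F)) c).re : ℝ) : ℂ) ^ 2 =
        ((((w.embedding.comp (algebraMap K F)) c).re : ℝ) : ℂ) := by
      rw [← Complex.ofReal_pow, Real.sq_sqrt hpos.le]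
    have h5 : starRingEnd ℂ (w.embedding z) = w.embedding z := by
      rcases sq_eq_sq_iff_eq_or_eq_neg.1 (h2.trans h3.symm) with h | h
      · rw [h, Complex.conj_ofReal]
      · rw [h, map_neg, Complex.conj_ofReal]
    have h6 := hconj (g z)
    have h7 : g.symm (g z) = z := g.symm_apply_apply z
    rw [h7, h5] at h6
    exact (w.embedding.injective h6).symm

/-- The global root number over `F` of the twist by `a`, if `F` contains the square roots of an element
`c` which is positive at the real places and a square at the places above `2 N`. (As `root_half`.) -/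
theorem root_quad (A B : Over (Spec (.of K))) [GrpObj A] [IsAbVar A] [GrpObj B] [IsAbVar B]
    {N : ℕ} (hA : GoodOutside A N) (a : K) (ha : a ≠ 0) (hAB : IsTwistBy A B a) (W : LocalSigns K)
    (hW : IsRootNumberFamily B W) (g : ℕ) (F : IntermediateField K (AlgebraicClosure K))
    [FiniteDimensional K F] [IsGalois K F] (c : K) (hc0 : c ≠ 0) (x : AlgebraicClosure K)
    (hxF : x ∈ F) (hx : x ^ 2 = algebraMap K (AlgebraicClosure K) c) (hK : ∀ y : K, y ^ 2 ≠ c)
    (hpos : TotPos c)
    (hloc : ∀ v : HeightOneSpectrum (𝓞 K), ((2 * N : ℕ) : 𝓞 K) ∈ v.asIdeal → LocSq v c) :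
    signOver W g F = 1 := by
  have h1 := infinite_pos F c x hxF hx hK hpos
  unfold signOver
  rw [(h1.mul_left g).neg_one_pow, one_mul, (finprod_places F (W F) (hW.almost F)).2]
  rw [finprod_congr (g := fun _ => (1 : ℤ)), finprod_one]
  intro v
  by_cases hv : LocSq v c
  · have hev := even_places F c x hxF hx hK v hv
    obtain ⟨𝔓, h𝔓⟩ := exists_above v
    obtain ⟨T, hT, -⟩ := exists_T F F le_rfl v 𝔓 h𝔓
    have hfin : Finite {w : HeightOneSpectrum (𝓞 F) // Divides F w v} :=
      Finite.of_surjective T hT
    exact root_prod_even hev _ (fun w => hW.sign F w.1)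
      (fun w w' => hW.transport F v w.1 w'.1 w.2 w'.2)
  · have h2N : ((2 * N : ℕ) : 𝓞 K) ∉ v.asIdeal := fun h => hv (hloc v h)
    rw [finprod_congr (g := fun _ => (1 : ℤ)), finprod_one]
    intro w
    exact place_signK A B hA a ha hAB W hW F c hc0 x hxF hx v h2N hv w.1 w.2

end Pool.Agent.H.MP_ac3185_nt.QF
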