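import Pool.Agent.H.MP_ac3185_nt.O42.Main
import Pool.Agent.H.MP_ac3185_nt.Q42.Rank
import Pool.Agent.H.MP_ac3185_nt.Q42.Root

/-! Twists over quadratic fields: the theorem. -/

set_option autoImplicit false

open CategoryTheory AlgebraicGeometry NumberField IsDedekindDomain
open scoped MonObj

namespace Pool.Agent.H.MP_ac3185_nt.QF

open OE KT

universe u

/-- The places above a positive integer are finite in number. -/
theorem places_finite {K : Type u} [Field K] [NumberField K] {m : ℕ} (hm : m ≠ 0) :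
    {v : HeightOneSpectrum (𝓞 K) | (m : 𝓞 K) ∈ v.asIdeal}.Finite := by
  have h0 : Ideal.span {(m : 𝓞 K)} ≠ 0 := by
    rw [Ne, Ideal.zero_eq_bot, Ideal.span_singleton_eq_bot]
    exact_mod_cast hm
  refine (Ideal.finite_factors h0).subset fun v hv => ?_
  show v.asIdeal ∣ Ideal.span {(m : 𝓞 K)}
  rw [Ideal.dvd_span_singleton]
  exact hv

/-- Two elements with the same signs at the real places have a product which is positive there. -/
theorem totPos_mul {K : Type u} [Field K] (a b : K) (ha : a ≠ 0) (hb : b ≠ 0)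
    (h : ∀ φ : K →+* ℂ, 0 < (φ a).re ↔ 0 < (φ b).re) : TotPos (a * b) := by
  intro φ hφ
  have hre : ∀ z : K, (((φ z).re : ℝ) : ℂ) = φ z := fun z => Complex.conj_eq_iff_re.1 (hφ z)
  have hmul : (φ (a * b)).re = (φ a).re * (φ b).re := by
    rw [map_mul, ← hre a, ← hre b, ← Complex.ofReal_mul, Complex.ofReal_re, Complex.ofReal_re,
      Complex.ofReal_re]
  have hne : ∀ z : K, z ≠ 0 → (φ z).re ≠ 0 := by
    intro z hz h0
    have h1 := hre z
    rw [h0, Complex.ofReal_zero] at h1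
    exact hz ((map_eq_zero φ).1 h1.symm)
  rw [hmul]
  have h1 := h φ
  rcases lt_or_gt_of_ne (hne a ha) with h2 | h2
  · have h3 : ¬ 0 < (φ b).re := fun h4 => absurd (h1.2 h4) (not_lt.2 h2.le)
    exact mul_pos_of_neg_of_neg h2 (lt_of_le_of_ne (not_lt.1 h3) (hne b hb))
  · exact mul_pos h2 (h1.1 h2)

/-- PROOF. The class of `a`: its classes at the places which divide `2 N` (`KT.classes`), its signs at
the real places, the parities of the ranks over `K` of the twists by `a`, and the constant parities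
`α a` of `exists_data`. For `a`, `b` in one class let `c = a * b`; `L'` is generated by the square roots
of `c` and of the `D j`, `j ≥ n`. Ranks: `rankQ_even` with `comb_sum`. Root numbers: `root_quad`. -/
theorem finite_classes {K : Type u} [Field K] [NumberField K] {I : Type} [Finite I]
    (A : I → Over (Spec (.of K))) [∀ i, GrpObj (A i)] [∀ i, IsAbVar (A i)] (X : Set K)
    (hX : ¬ FiniteDimensional K (sqrtExt X)) :
    ∃ (m : ℕ) (κ : Kˣ → Fin m), ∀ a b : Kˣ, κ a = κ b → ¬ IsSquare (a * b) →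
      TowerOver A (a : K) (sqrtExt (insert ((a : K) * b) X)) (sqrtExt {(a : K) * b}) := by
  classical
  have hcount := countable_of_numberField K
  have _ : Fintype I := Fintype.ofFinite I
  -- good reduction
  choose N₀ hN₀ hgood₀ using fun i => gc_good (A i)
  obtain ⟨N, hNdef⟩ : ∃ N, N = ∏ i, N₀ i := ⟨_, rfl⟩
  have hN : N ≠ 0 := by
    rw [hNdef]
    exact Finset.prod_ne_zero_iff.2 fun i _ => hN₀ i
  have hgood : ∀ i, GoodOutside (A i) N := by
    intro i v hv
    refine hgood₀ i v fun h => hv ?_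
    obtain ⟨k, hk⟩ : N₀ i ∣ N := by
      rw [hNdef]
      exact Finset.dvd_prod_of_mem N₀ (Finset.mem_univ i)
    rw [hk, Nat.cast_mul]
    exact Ideal.mul_mem_right _ _ h
  -- the sequence
  obtain ⟨x, hx1, hx0, hxi⟩ := exists_indep X hX
  obtain ⟨s, hs1, hs2, α, k, hα⟩ := exists_data x (fun (i : I) ψ => psiRank (A i) ψ)
  obtain ⟨D, hDdef⟩ : ∃ D : ℕ → K, ∀ j, D j = ∏ q ∈ s j, x q := ⟨_, fun _ => rfl⟩
  have hD0 : ∀ j, D j ≠ 0 := fun j => by
    rw [hDdef]
    exact Finset.prod_ne_zero_iff.2 fun q _ => hx0 q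
  have hDi : ∀ T : Finset ℕ, T.Nonempty → ∀ y : K, y ^ 2 ≠ ∏ j ∈ T, D j := by
    intro T hT y hy
    obtain ⟨j, hj⟩ := hT
    obtain ⟨q, hq⟩ := hs1 j
    refine hxi (T.biUnion s) ⟨q, Finset.mem_biUnion.2 ⟨j, hj, hq⟩⟩ y ?_
    rw [hy, Finset.prod_biUnion fun j _ k _ hjk => hs2 j k hjk]
    exact Finset.prod_congr rfl fun j _ => hDdef j
  have hα' : ∀ a i, ∀ T : Finset ℕ, T.Nonempty → (∀ j ∈ T, k a i ≤ j) →
      (Even (psiRank (A i) (chiK (∏ j ∈ T, D j) * chiK a)) ↔ α a i) := by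
    intro a i T hT h
    have h1 := hα a i T hT h
    simp only [← hDdef] at h1
    exact h1
  -- the classes
  have hfin := places_finite (K := K) (m := 2 * N) (by omega)
  have hfin' : Finite {v : HeightOneSpectrum (𝓞 K) // ((2 * N : ℕ) : 𝓞 K) ∈ v.asIdeal} :=
    hfin.to_subtype
  choose C hC κ₀ _ hκ₀ using fun v : HeightOneSpectrum (𝓞 K) => classes v
  obtain ⟨cl, hcl⟩ : ∃ cl : Kˣ →
      ((v : {v : HeightOneSpectrum (𝓞 K) // ((2 * N : ℕ) : 𝓞 K) ∈ v.asIdeal}) → C v.1) ×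
        ((K →+* ℂ) → Prop) × (I → Prop × Prop), ∀ a, cl a =
      (fun v : {v : HeightOneSpectrum (𝓞 K) // ((2 * N : ℕ) : 𝓞 K) ∈ v.asIdeal} => κ₀ v.1 (a : K),
        fun φ : K →+* ℂ => 0 < (φ (a : K)).re,
        fun i : I => (Even (psiRank (A i) (chiK (a : K))), α (a : K) i)) := ⟨_, fun _ => rfl⟩
  have hfinC : Finite (((v : {v : HeightOneSpectrum (𝓞 K) // ((2 * N : ℕ) : 𝓞 K) ∈ v.asIdeal}) →
      C v) × ((K →+* ℂ) → Prop) × (I → Prop × Prop)) := inferInstance
  obtain ⟨m, ⟨e⟩⟩ := Finite.exists_equiv_fin (((v : {v : HeightOneSpectrum (𝓞 K) //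
    ((2 * N : ℕ) : 𝓞 K) ∈ v.asIdeal}) → C v) × ((K →+* ℂ) → Prop) × (I → Prop × Prop))
  refine ⟨m, fun a => e (cl a), ?_⟩
  intro a b hab hns
  have hab' := e.injective hab
  rw [hcl, hcl, Prod.mk.injEq, Prod.mk.injEq] at hab'
  obtain ⟨h1, h2, h3⟩ := hab'
  obtain ⟨c, hc⟩ : ∃ c : K, c = (a : K) * (b : K) := ⟨_, rfl⟩
  rw [← hc]
  have hc0 : c ≠ 0 := by
    rw [hc]
    exact mul_ne_zero a.ne_zero b.ne_zero
  have hcK : ∀ y : K, y ^ 2 ≠ c := by
    intro y hy
    apply hns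
    have hy0 : y ≠ 0 := by
      rintro rfl
      rw [zero_pow two_ne_zero] at hy
      exact hc0 hy.symm
    refine ⟨Units.mk0 y hy0, Units.ext ?_⟩
    rw [Units.val_mul, Units.val_mul, Units.val_mk0, ← sq, hy, hc]
  have hchic : chiK c ≠ 1 := fun h => by
    obtain ⟨y, hy⟩ := isSquare_of_chiK h
    exact hcK y hy
  have hloc : ∀ v : HeightOneSpectrum (𝓞 K), ((2 * N : ℕ) : 𝓞 K) ∈ v.asIdeal → LocSq v c := by
    intro v hv
    rw [hc]
    exact hκ₀ v _ _ a.ne_zero b.ne_zero (congrFun h1 ⟨v, hv⟩)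
  have hpos : TotPos c := by
    rw [hc]
    refine totPos_mul _ _ a.ne_zero b.ne_zero fun φ => ?_
    exact iff_of_eq (congrFun h2 φ)
  have h4 : ∀ i, (Even (psiRank (A i) (chiK (a : K))) ↔ Even (psiRank (A i) (chiK (b : K)))) ∧
      (α (a : K) i ↔ α (b : K) i) := by
    intro i
    have h5 := congrFun h3 i
    rw [Prod.mk.injEq] at h5
    exact ⟨iff_of_eq h5.1, iff_of_eq h5.2⟩
  -- the index
  obtain ⟨n, hn⟩ : ∃ n, ∀ i, k (a : K) i ≤ n ∧ k (b : K) i ≤ n := by
    refine ⟨∑ i, (k (a : K) i + k (b : K) i), fun i => ?_⟩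
    have h1 := Finset.single_le_sum (f := fun i => k (a : K) i + k (b : K) i)
      (fun _ _ => Nat.zero_le _) (Finset.mem_univ i)
    omega
  obtain ⟨Y, hY⟩ : ∃ Y : Set K, Y = insert c {z | ∃ j, n ≤ j ∧ z = D j} := ⟨_, rfl⟩
  have hDY : ∀ j, n ≤ j → D j ∈ Y := by
    intro j hj
    rw [hY]
    exact Or.inr ⟨j, hj, rfl⟩
  have hcY : c ∈ Y := by
    rw [hY]
    exact Set.mem_insert _ _
  have hY0 : ∀ b ∈ Y, b ≠ 0 := by
    intro b hb
    rw [hY] at hb
    rcases hb with h | ⟨j, -, h⟩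
    · rw [h]
      exact hc0
    · rw [h]
      exact hD0 j
  refine ⟨sqrtExt Y, sqrtExt_mono (Set.singleton_subset_iff.2 hcY), ?_,
    infinite_of_indep D hD0 hDi n Y hDY, ?_⟩
  · -- the tower lies in the given field
    conv_lhs => unfold sqrtExt
    rw [IntermediateField.adjoin_le_iff]
    rintro z ⟨b, hb, hz⟩
    rw [hY] at hb
    rcases hb with h | ⟨j, -, h⟩
    · exact mem_sqrtExt (Set.mem_insert_iff.2 (Or.inl h)) hz
    · have h1 : (∏ q ∈ s j, rtK K (x q)) ^ 2 = z ^ 2 := by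
        rw [hz, h, hDdef, ← Finset.prod_pow, map_prod]
        exact Finset.prod_congr rfl fun q _ => rtK_sq K _
      have h2 : ∏ q ∈ s j, rtK K (x q) ∈ sqrtExt (insert c X) :=
        prod_mem fun q _ => mem_sqrtExt (Set.mem_insert_of_mem c (hx1 q)) (rtK_sq K _)
      rcases sq_eq_sq_iff_eq_or_eq_neg.1 h1 with h3 | h3
      · rwa [h3] at h2
      · rw [h3] at h2
        exact neg_mem_iff.1 h2
  · -- the fields
    intro F hfd hLF hF i B _ _ hAB
    have hxF : rtK K c ∈ F := hLF (mem_sqrtExt (Set.mem_singleton c) (rtK_sq K c))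
    have hFT : AboveTower (sqrtExt Y) F := by
      rcases hF with hF | hF
      · exact tow_above Y F hF c (rtK K c) hxF (rtK_sq K c) hcK
      · exact hF
    have hgal : IsGalois K F := hFT.2.1
    refine ⟨fun W hW g => root_quad (A i) B (hgood i) (a : K) a.ne_zero hAB W hW g F c hc0
      (rtK K c) hxF (rtK_sq K c) hcK hpos hloc, ?_⟩
    refine rankQ_even (A i) B (a : K) hAB Y hY0 F hFT c (rtK K c) hxF (rtK_sq K c) hchic ?_
    intro t ht
    rw [hY] at ht
    obtain ⟨T, hT, hprod⟩ := prod_split D n c t ht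
    have hbet : Bet (fun (i : I) ψ => psiRank (A i) ψ) α (a : K) i ↔
        Bet (fun (i : I) ψ => psiRank (A i) ψ) α (b : K) i := by
      unfold Bet
      rw [(h4 i).1, (h4 i).2]
    have hsum := comb_sum (fun (i : I) ψ => psiRank (A i) ψ) D α k hα' (a : K) (b : K) i
      hbet T (fun j hj => (hn i).1.trans (hT j hj)) (fun j hj => (hn i).2.trans (hT j hj))
    have hsum0 : psiRank (A i) (chiK (∏ j ∈ T, D j) * chiK (a : K)) +
        psiRank (A i) (chiK (∏ j ∈ T, D j) * chiK (b : K)) ≡ 0 [MOD 2] := by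
      refine hsum.trans ?_
      have h5 := (h4 i).1
      rw [Nat.even_iff, Nat.even_iff] at h5
      show (_ + _) % 2 = 0 % 2
      omega
    have hD1 : ∏ j ∈ T, D j ≠ 0 := Finset.prod_ne_zero_iff.2 fun j _ => hD0 j
    have hcc : chiK c = chiK (a : K) * chiK (b : K) := by
      rw [hc, chiK_mul a.ne_zero b.ne_zero]
    have hca : chiK c * chiK (a : K) = chiK (b : K) := by
      rw [hcc, mul_comm (chiK (a : K)), mul_assoc, Chi_self_mul, mul_one]
    rcases hprod with h | h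
    · rw [h, mul_assoc _ (chiK c), hca]
      exact hsum0
    · rw [h, chiK_mul hc0 hD1, mul_comm (chiK c) (chiK (∏ j ∈ T, D j)),
        mul_assoc _ (chiK c) (chiK c), Chi_self_mul, mul_one, mul_assoc _ (chiK c), hca,
        add_comm]
      exact hsum0

end Pool.Agent.H.MP_ac3185_nt.QF
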