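import Pool.Agent.H.MP_ac3185_nt.helper16.K.Sign

/-! All but finitely many twists over quadratic fields: the sign of the twist at a place which does not
divide `2 N`. -/

set_option autoImplicit false

open CategoryTheory AlgebraicGeometry NumberField IsDedekindDomain
open scoped MonObj

namespace Pool.Agent.H.MP_ac3185_nt.QF

open OE KT

universe u

variable {K : Type u} [Field K] [NumberField K]

omit [NumberField K] in
/-- Inertia fixes the square roots of integers prime to the odd place `v`. -/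
theorem inertia_fixK (r : 𝓞 K) (v : HeightOneSpectrum (𝓞 K)) (h2 : (2 : 𝓞 K) ∉ v.asIdeal)
    (hr : r ∉ v.asIdeal) (𝔔 : Ideal (𝓞 (AlgebraicClosure K))) (h𝔔 : Above 𝔔 v)
    (g : AlgebraicClosure K ≃ₐ[K] AlgebraicClosure K) (hg : g ∈ inertia K 𝔔)
    (s : AlgebraicClosure K) (hs : s ^ 2 = algebraMap K (AlgebraicClosure K) (r : K)) : g s = s := by
  have hp : 𝔔.IsPrime := h𝔔.1
  rcases sq_map_eqK (r : K) g s hs with h | h
  · exact h
  exfalso
  have hint : IsIntegral (𝓞 K) s := by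
    refine ⟨Polynomial.X ^ 2 - Polynomial.C r, Polynomial.monic_X_pow_sub_C _ two_ne_zero, ?_⟩
    rw [Polynomial.eval₂_sub, Polynomial.eval₂_pow, Polynomial.eval₂_X, Polynomial.eval₂_C, hs,
      sub_eq_zero]
    rfl
  obtain ⟨a, ha⟩ : ∃ a : 𝓞 (AlgebraicClosure K), (a : AlgebraicClosure K) = s :=
    ⟨⟨s, isIntegral_trans _ hint⟩, rfl⟩
  have h5 : galInt g a - a = -(2 * a) := by
    apply RingOfIntegers.ext
    have e1 : ((galInt g a - a : 𝓞 (AlgebraicClosure K)) : AlgebraicClosure K) =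
      g (a : AlgebraicClosure K) - a := rfl
    have e2 : ((-(2 * a) : 𝓞 (AlgebraicClosure K)) : AlgebraicClosure K) =
      -(2 * (a : AlgebraicClosure K)) := rfl
    rw [e1, e2, ha, h]
    ring
  have h6 : (2 * a) ∈ 𝔔 := by
    have := hg a
    rw [h5] at this
    exact neg_mem_iff.1 this
  have h7 : a * a = algebraMap (𝓞 K) (𝓞 (AlgebraicClosure K)) r := by
    apply RingOfIntegers.ext
    have e1 : ((a * a : 𝓞 (AlgebraicClosure K)) : AlgebraicClosure K) =
      (a : AlgebraicClosure K) * a := rfl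
    rw [e1, ha, ← sq, hs]
    rfl
  rcases hp.mem_or_mem h6 with h8 | h8
  · apply h2
    rw [← above_mem h𝔔, map_ofNat]
    exact h8
  · have h9 : a * a ∈ 𝔔 := Ideal.mul_mem_left _ _ h8
    rw [h7, above_mem h𝔔] at h9
    exact hr h9

/-- The product of two non-squares in the residue field is a square. -/
private theorem Loc_prod (v : HeightOneSpectrum (𝓞 K)) {y : 𝓞 K ⧸ v.asIdeal}
    (h1 : ¬ IsSquare (-1 : 𝓞 K ⧸ v.asIdeal)) (h2 : ¬ IsSquare y) : IsSquare (-y) := by
  classical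
  have hmax : v.asIdeal.IsMaximal := v.isMaximal
  let _ : Field (𝓞 K ⧸ v.asIdeal) := Ideal.Quotient.field v.asIdeal
  have _ : Finite (𝓞 K ⧸ v.asIdeal) := Ideal.finiteQuotientOfFreeOfNeBot v.asIdeal v.ne_bot
  let _ : Fintype (𝓞 K ⧸ v.asIdeal) := Fintype.ofFinite _
  have h0 : (-1 : 𝓞 K ⧸ v.asIdeal) * y ≠ 0 := by
    intro h
    rcases mul_eq_zero.1 h with h | h
    · exact h1 (by rw [h]; exact IsSquare.zero)
    · exact h2 (by rw [h]; exact IsSquare.zero)
  have h3 : IsSquare ((-1 : 𝓞 K ⧸ v.asIdeal) * y) := by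
    rw [← quadraticChar_one_iff_isSquare h0, map_mul,
      quadraticChar_neg_one_iff_not_isSquare.2 h1, quadraticChar_neg_one_iff_not_isSquare.2 h2]
    norm_num
  rw [neg_one_mul] at h3
  exact h3

/-- If `r` is not a square modulo `v` and `F` contains a square root of `r`, then `-1` is a square in the
residue fields of the places of `F` above `v`. -/
theorem neg_one_squareK (r : 𝓞 K) (v : HeightOneSpectrum (𝓞 K))
    (hr : r ∉ v.asIdeal) (hb : ∀ b : 𝓞 K, r - b ^ 2 ∉ v.asIdeal)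
    (F : IntermediateField K (AlgebraicClosure K)) [FiniteDimensional K F]
    (x : AlgebraicClosure K) (hxF : x ∈ F)
    (hx : x ^ 2 = algebraMap K (AlgebraicClosure K) (r : K))
    (w : HeightOneSpectrum (𝓞 F)) (hw : Divides F w v) :
    IsSquare (-1 : 𝓞 F ⧸ w.asIdeal) := by
  have hle : v.asIdeal ≤ w.asIdeal.comap (algebraMap (𝓞 K) (𝓞 F)) := by
    unfold Divides at hw
    rw [hw]
  have hmv : v.asIdeal.IsMaximal := v.isMaximal
  have hNF : NumberField F := NumberField.of_module_finite K F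
  have hmw : w.asIdeal.IsMaximal := w.isMaximal
  obtain ⟨φ, hφ⟩ : ∃ φ : (𝓞 K ⧸ v.asIdeal) →+* (𝓞 F ⧸ w.asIdeal),
      ∀ z : 𝓞 K, φ (Ideal.Quotient.mk v.asIdeal z) =
        Ideal.Quotient.mk w.asIdeal (algebraMap (𝓞 K) (𝓞 F) z) :=
    ⟨Ideal.quotientMap w.asIdeal (algebraMap (𝓞 K) (𝓞 F)) hle, fun z => rfl⟩
  by_cases h1 : IsSquare (-1 : 𝓞 K ⧸ v.asIdeal)
  · have h3 := h1.map φ
    rwa [map_neg, map_one] at h3
  -- `r` is not a square
  have hns : ¬ IsSquare (Ideal.Quotient.mk v.asIdeal r) := by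
    rintro ⟨c, hc⟩
    obtain ⟨b, rfl⟩ := Ideal.Quotient.mk_surjective c
    apply hb b
    rw [← Ideal.Quotient.eq_zero_iff_mem, map_sub, map_pow, hc, pow_two, sub_self]
  obtain ⟨b, hb'⟩ := Loc_prod v h1 hns
  -- the square root of `r`
  have hxi : IsIntegral ℤ (⟨x, hxF⟩ : F) := by
    refine IsIntegral.of_pow two_pos ?_
    have h3 : (⟨x, hxF⟩ : F) ^ 2 = algebraMap K F (r : K) := by
      apply Subtype.ext
      show x ^ 2 = _
      rw [hx]
      rfl
    rw [h3]
    exact (RingOfIntegers.isIntegral_coe r).map ((algebraMap K F).toIntAlgHom)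
  obtain ⟨a, ha⟩ : ∃ a : 𝓞 F, a ^ 2 = algebraMap (𝓞 K) (𝓞 F) r := by
    refine ⟨⟨⟨x, hxF⟩, hxi⟩, ?_⟩
    apply RingOfIntegers.ext
    apply Subtype.ext
    show x ^ 2 = _
    rw [hx]
    rfl
  have hnw : Ideal.Quotient.mk w.asIdeal a ≠ 0 := by
    intro h3
    apply hr
    unfold Divides at hw
    rw [← hw, Ideal.mem_comap, ← ha]
    rw [Ideal.Quotient.eq_zero_iff_mem] at h3
    exact Ideal.pow_mem_of_mem _ h3 2 two_pos
  obtain ⟨c, hc⟩ := Ideal.Quotient.exists_inv hnw
  refine ⟨φ b * c, ?_⟩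
  have h4 := congrArg φ hb'
  rw [map_neg, hφ, map_mul] at h4
  have h5 : (Ideal.Quotient.mk w.asIdeal a) ^ 2 =
      Ideal.Quotient.mk w.asIdeal (algebraMap (𝓞 K) (𝓞 F) r) := by
    rw [← map_pow, ha]
  calc (-1 : 𝓞 F ⧸ w.asIdeal) = -((Ideal.Quotient.mk w.asIdeal a * c) * (Ideal.Quotient.mk w.asIdeal a * c)) := by
        rw [hc, one_mul]
    _ = -((Ideal.Quotient.mk w.asIdeal a) ^ 2) * (c * c) := by ring
    _ = φ b * φ b * (c * c) := by rw [h5, h4]
    _ = φ b * c * (φ b * c) := by ring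

/-- The sign of the twist by `a` at a place of `F` above a place `v` which does not divide `2 N`, if `F`
contains the square roots of an element `c` which is not a square at `v`. -/
theorem place_signK (A B : Over (Spec (.of K))) [GrpObj A] [IsAbVar A] [GrpObj B] [IsAbVar B]
    {N : ℕ} (hA : GoodOutside A N) (a : K) (ha : a ≠ 0) (hAB : IsTwistBy A B a) (W : LocalSigns K)
    (hW : IsRootNumberFamily B W) (F : IntermediateField K (AlgebraicClosure K))
    [FiniteDimensional K F] (c : K) (hc0 : c ≠ 0) (x : AlgebraicClosure K) (hxF : x ∈ F)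
    (hx : x ^ 2 = algebraMap K (AlgebraicClosure K) c) (v : HeightOneSpectrum (𝓞 K))
    (hv : ((2 * N : ℕ) : 𝓞 K) ∉ v.asIdeal) (hc : ¬ LocSq v c)
    (w : HeightOneSpectrum (𝓞 F)) (hw : Divides F w v) : W F w = 1 := by
  obtain ⟨𝔔, h𝔔, hab⟩ := rootb_primeOver F w v hw
  have hN : (N : 𝓞 K) ∉ v.asIdeal := fun h => hv (by
    rw [Nat.cast_mul]
    exact Ideal.mul_mem_left _ _ h)
  have h2 : (2 : 𝓞 K) ∉ v.asIdeal := fun h => hv (by
    rw [Nat.cast_mul, Nat.cast_ofNat]
    exact Ideal.mul_mem_right _ _ h)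
  have h2Q : (2 : 𝓞 (AlgebraicClosure K)) ∉ 𝔔 := fun h => h2 (by
    rw [← above_mem hab, map_ofNat]
    exact h)
  have hA' := hA v hN 𝔔 hab
  obtain ⟨φ, hφ⟩ := hAB
  obtain ⟨s, hs⟩ : ∃ s : AlgebraicClosure K, s ^ 2 = algebraMap K (AlgebraicClosure K) a :=
    ⟨rtK K a, rtK_sq K a⟩
  obtain ⟨ϖ, hϖ, hrep⟩ := KT.exists_rep v
  obtain ⟨e, r, y, hr, hy, hae⟩ := hrep a ha
  obtain ⟨e', r', y', hr', hy', hce⟩ := hrep c hc0
  have hinj : ∀ z : K, z ≠ 0 → algebraMap K (AlgebraicClosure K) z ≠ 0 := fun z hz =>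
    (map_ne_zero _).2 hz
  have hx0 : x ≠ 0 := by
    rintro rfl
    rw [zero_pow two_ne_zero] at hx
    exact hinj c hc0 hx.symm
  by_cases he' : e' = 0
  · -- `c` is unramified
    have hc' : c = (r' : K) * y' ^ 2 := by
      rw [hce, he']
      simp
    have hns : ∀ b : 𝓞 K, r' - b ^ 2 ∉ v.asIdeal := by
      intro b hb
      apply hc
      refine ⟨r', b, y', hy', hc', ?_, Or.inl ⟨h2, hb⟩⟩
      intro hbv
      apply hr'
      have := add_mem hb (Ideal.pow_mem_of_mem _ hbv 2 two_pos)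
      rwa [sub_add_cancel] at this
    have hxy : (x / algebraMap K (AlgebraicClosure K) y') ^ 2 =
        algebraMap K (AlgebraicClosure K) (r' : K) := by
      rw [div_pow, hx, hc', map_mul, map_pow, mul_div_cancel_right₀ _ (pow_ne_zero 2 (hinj y' hy'))]
    refine hW.twist F w 𝔔 h𝔔 h2Q
      (neg_one_squareK r' v hr' hns F _ (div_mem hxF (algebraMap_mem F y')) hxy w hw) ?_
    intro ℓ _ hℓ
    obtain ⟨h3, h4⟩ := hA' ℓ hℓ
    refine ⟨rootb_finite φ ℓ h3, fun g hg _ => ?_⟩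
    by_cases hgs : g s = s
    · exact Or.inl (rootb_pos φ ℓ g (h4 g hg) fun y => (hφ g s hs y).1 hgs)
    · exact Or.inr (rootb_neg φ ℓ g (h4 g hg) fun y => (hφ g s hs y).2 hgs)
  · -- `c` is ramified: inertia over `F` fixes the square roots of `a`
    have he1 : (e' : ℕ) = 1 := by
      have h5 := e'.2
      have h6 : (e' : ℕ) ≠ 0 := fun h => he' (Fin.ext h)
      omega
    refine hW.good F w 𝔔 h𝔔 fun ℓ _ hℓ => ?_
    obtain ⟨h3, h4⟩ := hA' ℓ hℓ
    refine ⟨rootb_finite φ ℓ h3, fun g hg hgF => ?_⟩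
    have hgx : g x = x := (IntermediateField.mem_fixingSubgroup_iff F g).1 hgF x hxF
    have hgs : g s = s := by
      by_cases he : e = 0
      · have hsy : (s / algebraMap K (AlgebraicClosure K) y) ^ 2 =
            algebraMap K (AlgebraicClosure K) (r : K) := by
          rw [div_pow, hs, hae, he]
          simp only [Fin.val_zero, pow_zero, one_mul, map_mul, map_pow]
          rw [mul_div_cancel_right₀ _ (pow_ne_zero 2 (hinj y hy))]
        have h5 := inertia_fixK r v h2 hr 𝔔 hab g hg _ hsy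
        rw [map_div₀, AlgEquiv.commutes] at h5
        exact (div_left_inj' (hinj y hy)).1 h5
      · have he2 : (e : ℕ) = 1 := by
          have h5 := e.2
          have h6 : (e : ℕ) ≠ 0 := fun h => he (Fin.ext h)
          omega
        have hz : ϖ * y * y' ≠ 0 := mul_ne_zero (mul_ne_zero hϖ hy) hy'
        have hrr : r * r' ∉ v.asIdeal := fun h => (v.isPrime.mem_or_mem h).elim hr hr'
        have hsx : (s * x / algebraMap K (AlgebraicClosure K) (ϖ * y * y')) ^ 2 =
            algebraMap K (AlgebraicClosure K) ((r * r' : 𝓞 K) : K) := by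
          have hrr' : ((r * r' : 𝓞 K) : K) = (r : K) * (r' : K) := map_mul _ _ _
          rw [div_pow, mul_pow, hs, hx, hae, hce, he1, he2, ← map_mul, ← map_pow, ← map_div₀, hrr']
          congr 1
          field_simp
        have h5 := inertia_fixK (r * r') v h2 hrr 𝔔 hab g hg _ hsx
        rw [map_div₀, AlgEquiv.commutes] at h5
        have h6 := (div_left_inj' (hinj _ hz)).1 h5
        rw [map_mul, hgx] at h6
        exact mul_right_cancel₀ hx0 h6
    exact rootb_pos φ ℓ g (h4 g hg) fun y => (hφ g s hs y).1 hgs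

end Pool.Agent.H.MP_ac3185_nt.QF
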